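import Pool.Agent.H.MP_9d9f8d_ag.A

set_option autoImplicit false

namespace Pool.Agent.PdSym

open Pool.Agent.PdOne Pool.Agent.PdFun MvPolynomial

variable {σ : Type} {k : Type} [Field k] {V : Type} [Fintype V] (u : V ↪ σ)

/-- Exponents whose zero set among the `u i` is a clique of `C`. -/
def CI (C : V → V → Prop) : Set (σ →₀ ℕ) :=
  {m | ∀ i j, i ≠ j → m (u i) = 0 → m (u j) = 0 → C i j}

/-- Exponents satisfying a condition on every pair of the `u i`. -/
def JF (N : V → V → ℕ → ℕ → Prop) : Set (σ →₀ ℕ) :=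
  {m | ∀ i j, i ≠ j → N i j (m (u i)) (m (u j))}

omit [Fintype V] in
lemma CI_up (C : V → V → Prop) : Up (CI u C) := fun m hm m' i j hij h1 h2 => by
  rw [Finsupp.add_apply] at h1 h2
  exact hm i j hij (by omega) (by omega)

section fiber
variable {N : V → V → ℕ → ℕ → Prop} {D : ℕ}
  (hup : ∀ i j a b a' b', N i j a b → a ≤ a' → b ≤ b' → N i j a' b')
  (hsym : ∀ i j a b, N i j a b → N j i b a)
  (ha : ∀ i j a, i ≠ j → a < D → ¬ N i j a D) (hb : ∀ i j, i ≠ j → N i j (D + 1) D)

omit [Fintype V] in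
include hup in
lemma JF_up : Up (JF u N) := fun m hm m' i j hij =>
  hup _ _ _ _ _ _ (hm i j hij) (by simp) (by simp)

/-- The filtration of a fibre. -/
def EF (N : V → V → ℕ → ℕ → Prop) (c : ℕ) (P : Finset V) : Set (σ →₀ ℕ) :=
  {m | m ∈ JF u N ∧ ∀ i, c ≤ m (u i) ∧ (m (u i) = c → i ∈ P)}

omit [Fintype V] in
include hup in
lemma EF_up (c : ℕ) (P : Finset V) : Up (EF u N c P) := fun m hm m' =>
  ⟨JF_up u hup m hm.1 m', fun i => by
    have := hm.2 i
    rw [Finsupp.add_apply]
    exact ⟨by omega, fun h => this.2 (by omega)⟩⟩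

include hup hsym ha hb in
lemma pm_EF {c n : ℕ} (hc : c < D) (h : PM k (EF u N (c + 1) Finset.univ) (n + 2))
    (P : Finset V) : PM k (EF u N c P) (n + 2) := by
  classical
  induction P using Finset.induction_on with
  | empty =>
    refine h.congr fun m => and_congr_right fun _ => forall_congr' fun i => ?_
    simp only [Finset.mem_univ, implies_true, and_true, Finset.notMem_empty, imp_false]
    omega
  | insert i P hi ih =>
    have big : ∀ j b, i ≠ j → N i j c b → D + 1 ≤ b := fun j b hij h1 => by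
      by_contra h2
      exact ha i j c hij hc (hup _ _ _ _ _ _ h1 le_rfl (by omega))
    have box : ∀ c', PM k {m : σ →₀ ℕ | ∀ j, (j = i → c' ≤ m (u j)) ∧
        (i ≠ j → N i j c (m (u j)))} 1 := fun c' =>
      pm_box u (fun j b => (j = i → c' ≤ b) ∧ (i ≠ j → N i j c b)) fun j a b h1 h2 =>
        ⟨fun e => (h1.1 e).trans h2, fun e => hup _ _ _ _ _ _ (h1.2 e) le_rfl h2⟩
    have inJ : ∀ m : σ →₀ ℕ, (∀ j, (j = i → c ≤ m (u j)) ∧ (i ≠ j → N i j c (m (u j)))) →
        m ∈ JF u N := by
      intro m hm j j' hjj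
      by_cases e : i = j
      · subst e
        exact hup _ _ _ _ _ _ ((hm j').2 hjj) ((hm i).1 rfl) le_rfl
      by_cases e' : i = j'
      · subst e'
        exact hsym _ _ _ _ (hup _ _ _ _ _ _ ((hm j).2 e) ((hm i).1 rfl) le_rfl)
      have h1 := big j _ e ((hm j).2 e)
      have h2 := big j' _ e' ((hm j').2 e')
      exact hup _ _ _ _ _ _ (hb j j' hjj) h1 (by omega)
    have up2 : Up {m : σ →₀ ℕ | ∀ j, (j = i → c ≤ m (u j)) ∧ (i ≠ j → N i j c (m (u j)))} :=
      fun m hm m' j => ⟨fun e => ((hm j).1 e).trans (by simp),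
        fun e => hup _ _ _ _ _ _ ((hm j).2 e) le_rfl (by simp)⟩
    refine (pm_union (EF_up u hup c P) up2
      (((box (c + 1)).mono (by omega)).congr fun m => ?_) ih ((box c).mono (by omega))).congr
      fun m => ?_
    · constructor
      · intro hm
        have hm' : ∀ j, (j = i → c ≤ m (u j)) ∧ (i ≠ j → N i j c (m (u j))) :=
          fun j => ⟨fun e => by have := (hm j).1 e; omega, (hm j).2⟩
        refine ⟨⟨inJ m hm', fun j => ?_⟩, hm'⟩
        by_cases e : j = i
        · have := (hm j).1 e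
          exact ⟨by omega, fun _ => by omega⟩
        · have := big j _ (Ne.symm e) ((hm j).2 (Ne.symm e))
          exact ⟨by omega, fun _ => by omega⟩
      · rintro ⟨h1, h2⟩ j
        refine ⟨fun e => ?_, (h2 j).2⟩
        subst e
        have := h1.2 j
        by_contra h3
        exact hi (this.2 (by omega))
    · constructor
      · rintro (hm | hm)
        · exact ⟨hm.1, fun j => ⟨(hm.2 j).1, fun e => Finset.mem_insert_of_mem ((hm.2 j).2 e)⟩⟩
        · refine ⟨inJ m hm, fun j => ?_⟩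
          by_cases e : j = i
          · exact ⟨(hm j).1 e, fun _ => by simp [e]⟩
          · have := big j _ (Ne.symm e) ((hm j).2 (Ne.symm e))
            exact ⟨by omega, fun _ => by omega⟩
      · intro hm
        by_cases e : m (u i) = c
        · exact Or.inr fun j => ⟨fun _ => (hm.2 j).1, fun e' => e ▸ hm.1 i j e'⟩
        · refine Or.inl ⟨hm.1, fun j => ⟨(hm.2 j).1, fun e' => ?_⟩⟩
          rcases Finset.mem_insert.1 ((hm.2 j).2 e') with rfl | h1
          · exact absurd e' e
          · exact h1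

include hup hsym ha hb in
lemma pm_JF {n : ℕ} (h : PM k (CI u fun i j => N i j D D) (n + 2)) : PM k (JF u N) (n + 2) := by
  have key : ∀ j ≤ D, PM k (EF u N (D - j) Finset.univ) (n + 2) := by
    intro j
    induction j with
    | zero =>
      intro _
      refine pm_shift (ev u fun _ => D) (fun m => ⟨fun hm => ?_, ?_⟩) h
      · obtain ⟨a, rfl⟩ := ev_le u (f := fun _ => D) (m := m) fun i => (hm.2 i).1
        refine ⟨a, fun i j hij h1 h2 => ?_, rfl⟩
        simpa [h1, h2] using hm.1 i j hij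
      · rintro ⟨a, h1, rfl⟩
        refine ⟨fun i j hij => ?_, fun i => by simp⟩
        simp only [Finsupp.add_apply, ev_u]
        by_cases e : a (u i) = 0
        · by_cases e' : a (u j) = 0
          · simpa [e, e'] using h1 i j hij e e'
          · exact hsym _ _ _ _ (hup _ _ _ _ _ _ (hb j i hij.symm) (by omega) (by omega))
        · exact hup _ _ _ _ _ _ (hb i j hij) (by omega) (by omega)
    | succ j ih =>
      intro hj
      refine pm_EF u hup hsym ha hb (by omega) ?_ _
      rw [show D - (j + 1) + 1 = D - j by omega]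
      exact ih (by omega)
  refine (key D le_rfl).congr fun m => ⟨fun hm => hm.1, fun hm => ⟨hm, fun i => by simp⟩⟩

end fiber

section cover
variable {Γ : Type} (lab : V → Γ) (C : V → V → Prop)

/-- The part of `CI` supported on one label. -/
def CG (γ : Γ) : Set (σ →₀ ℕ) := {m | m ∈ CI u C ∧ ∀ i, lab i ≠ γ → m (u i) ≠ 0}

lemma pm_cover (hC : ∀ i j, i ≠ j → C i j → lab i = lab j) {n : ℕ}
    (h : ∀ γ, PM k (CG u lab C γ) (n + 2)) : PM k (CI u C) (n + 2) := by
  classical
  have box : PM k {m : σ →₀ ℕ | ∀ i, m (u i) ≠ 0} 1 :=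
    pm_box u (fun _ b => b ≠ 0) fun _ a b h1 h2 => by omega
  have key : ∀ P : Finset Γ, PM k {m | m ∈ CI u C ∧ ((∀ i, m (u i) ≠ 0) ∨
      ∃ γ ∈ P, ∀ i, lab i ≠ γ → m (u i) ≠ 0)} (n + 2) := by
    intro P
    induction P using Finset.induction_on with
    | empty =>
      refine (box.mono (by omega)).congr fun m => ⟨fun hm => ⟨fun i _ _ h1 => ?_, Or.inl hm⟩,
        fun hm => by simpa using hm.2⟩
      exact absurd h1 (hm i)
    | insert γ P hγ ih =>
      have up1 : Up {m | m ∈ CI u C ∧ ((∀ i, m (u i) ≠ 0) ∨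
          ∃ γ ∈ P, ∀ i, lab i ≠ γ → m (u i) ≠ 0)} := by
        refine fun m hm m' => ⟨CI_up u C m hm.1 m', ?_⟩
        simp only [Finsupp.add_apply]
        rcases hm.2 with h1 | ⟨δ, hδ, h1⟩
        · exact Or.inl fun i => by have := h1 i; omega
        · exact Or.inr ⟨δ, hδ, fun i hi => by have := h1 i hi; omega⟩
      have up2 : Up (CG u lab C γ) := by
        refine fun m hm m' => ⟨CI_up u C m hm.1 m', fun i hi => ?_⟩
        have := hm.2 i hi
        rw [Finsupp.add_apply]; omega
      refine (pm_union up1 up2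
        ((box.mono (by omega)).congr fun m => ?_) ih (h γ)).congr fun m => ?_
      · constructor
        · intro hm
          have : m ∈ CI u C := fun i _ _ h1 => absurd h1 (hm i)
          exact ⟨⟨this, Or.inl hm⟩, this, fun i _ => hm i⟩
        · rintro ⟨⟨-, h1 | ⟨δ, hδ, h1⟩⟩, -, h2⟩ i
          · exact h1 i
          · by_cases e : lab i = γ
            · exact h1 i fun e' => hγ (e ▸ e' ▸ hδ)
            · exact h2 i e
      · constructor
        · rintro (⟨h1, h2 | ⟨δ, hδ, h2⟩⟩ | ⟨h1, h2⟩)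
          · exact ⟨h1, Or.inl h2⟩
          · exact ⟨h1, Or.inr ⟨δ, Finset.mem_insert_of_mem hδ, h2⟩⟩
          · exact ⟨h1, Or.inr ⟨γ, Finset.mem_insert_self _ _, h2⟩⟩
        · rintro ⟨h1, h2 | ⟨δ, hδ, h2⟩⟩
          · exact Or.inl ⟨h1, Or.inl h2⟩
          · rcases Finset.mem_insert.1 hδ with rfl | hδ
            · exact Or.inr ⟨h1, h2⟩
            · exact Or.inl ⟨h1, Or.inr ⟨δ, hδ, h2⟩⟩
  refine (key (Finset.univ.image lab)).congr fun m => ⟨fun hm => hm.1, fun hm => ⟨hm, ?_⟩⟩
  by_cases h0 : ∀ i, m (u i) ≠ 0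
  · exact Or.inl h0
  · push Not at h0
    obtain ⟨i, hi⟩ := h0
    refine Or.inr ⟨lab i, by simp, fun j hj h1 => hj ?_⟩
    have hij : j ≠ i := fun e => hj (e ▸ rfl)
    exact hC j i hij (hm j i hij h1 hi)

lemma pm_clique (γ : Γ) (h : ∀ i j, i ≠ j → lab i = γ → lab j = γ → C i j) :
    PM k (CG u lab C γ) 1 := by
  refine (pm_box u (fun i b => lab i ≠ γ → b ≠ 0) fun _ a b h1 h2 h3 => by
    have := h1 h3; omega).congr fun m => ⟨fun hm => ⟨fun i j hij h1 h2 => ?_, hm⟩, fun hm => hm.2⟩
  exact h i j hij (by_contra fun e => hm i e h1) (by_contra fun e => hm j e h2)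

lemma pm_match [DecidableEq σ] (γ : Γ) {L : Type} [Fintype L] (a b : L → V)
    (ha : ∀ l, lab (a l) = γ) (hb : ∀ l, lab (b l) = γ) (hab : ∀ l, a l ≠ b l)
    (h1 : ∀ l, ¬ C (a l) (b l))
    (h : ∀ i j, i ≠ j → lab i = γ → lab j = γ → C i j ∨
      ∃ l, (i = a l ∧ j = b l) ∨ (i = b l ∧ j = a l)) :
    PM k (CG u lab C γ) (Fintype.card L + 1) := by
  classical
  refine pm_shift (ev u fun i => if lab i = γ then 0 else 1) (fun m => ⟨fun hm => ?_, ?_⟩)
    (pm_LL (fun l => u (a l)) (fun l => u (b l)) Finset.univ ∅)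
  · obtain ⟨c, rfl⟩ := ev_le u (f := fun i => if lab i = γ then 0 else 1) (m := m) fun i => by
      split_ifs with e
      · omega
      · have := hm.2 i e; omega
    refine ⟨c, Or.inl fun l _ => ?_, rfl⟩
    by_contra h2
    push Not at h2
    exact h1 l (hm.1 _ _ (hab l) (by simp [ha, h2.1]) (by simp [hb, h2.2]))
  · rintro ⟨c, hc | ⟨g, hg, -⟩, rfl⟩
    · refine ⟨fun i j hij h2 h3 => ?_, fun i hi => by simp [hi]⟩
      simp only [Finsupp.add_apply, ev_u, Nat.add_eq_zero_iff, ite_eq_left_iff, one_ne_zero,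
        imp_false, not_not] at h2 h3
      rcases h i j hij h2.2 h3.2 with h4 | ⟨l, ⟨rfl, rfl⟩ | ⟨rfl, rfl⟩⟩
      · exact h4
      · exact ((hc l (by simp)).elim (· h2.1) (· h3.1)).elim
      · exact ((hc l (by simp)).elim (· h3.1) (· h2.1)).elim
    · simp at hg

end cover

/-- Exponents of the whole ideal. -/
def JX (x : σ) (N : ℕ → V → V → ℕ → ℕ → Prop) : Set (σ →₀ ℕ) :=
  {m | ∀ i j, i ≠ j → N (m x) i j (m (u i)) (m (u j))}

variable {x : σ} {N : ℕ → V → V → ℕ → ℕ → Prop}
  (hup : ∀ c i j a b c' a' b', N c i j a b → c ≤ c' → a ≤ a' → b ≤ b' → N c' i j a' b')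

omit [Fintype V] in
include hup in
lemma JX_up : Up (JX u x N) := fun m hm m' i j hij =>
  hup _ _ _ _ _ _ _ _ (hm i j hij) (by simp) (by simp) (by simp)

lemma ex_add {x : σ} {c : ℕ} {m : σ →₀ ℕ} (h : c ≤ m x) : ∃ a, a + Finsupp.single x c = m := by
  obtain ⟨a, ha⟩ := le_iff_exists_add.1 (Finsupp.single_le_iff.2 h)
  exact ⟨a, by rw [ha, add_comm]⟩

lemma pm_pow (x : σ) (c : ℕ) : PM k {m : σ →₀ ℕ | c ≤ m x} 1 := by
  refine pm_shift (Finsupp.single x c) (fun m => ⟨fun hm => ?_, ?_⟩) pm_univ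
  · obtain ⟨a, ha⟩ := ex_add hm
    exact ⟨a, trivial, ha⟩
  · rintro ⟨a, -, rfl⟩
    simp

lemma pow_up (x : σ) (c : ℕ) : Up {m : σ →₀ ℕ | c ≤ m x} := fun _ hm _ =>
  le_trans hm (Nat.le_add_right _ _)

include hup in
theorem pm_JX (hx : ∀ i, u i ≠ x) (hsym : ∀ c i j a b, N c i j a b → N c j i b a) {T n : ℕ}
    (ha : ∀ c i j a b, i ≠ j → N c i j a b → 2 * T ≤ 2 * c + a + b)
    (hb : ∀ c i j, c < T → i ≠ j → N c i j (T - c + 1) (T - c))
    (hc : ∀ i j, i ≠ j → N T i j 0 0)
    (hd : ∀ c < T, PM k (CI u fun i j => N c i j (T - c) (T - c)) (n + 2)) :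
    PM k (JX u x N) (n + 3) := by
  have sx : ∀ c i, Finsupp.single x c (u i) = 0 := fun c i => Finsupp.single_eq_of_ne (hx i)
  have key : ∀ c ≤ T, PM k (JX u x N ∪ {m | c ≤ m x}) (n + 3) := by
    intro c
    induction c with
    | zero =>
      intro _
      exact (pm_univ.mono (by omega)).congr fun m => ⟨fun _ => Or.inr (Nat.zero_le _),
        fun _ => trivial⟩
    | succ c ih =>
      intro hcT
      have hup' : ∀ i j a b a' b', N c i j a b → a ≤ a' → b ≤ b' → N c i j a' b' :=
        fun i j a b a' b' h => hup _ _ _ _ _ _ _ _ h le_rfl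
      have h1 : PM k (JF u (N c)) (n + 2) := pm_JF u hup' (hsym c) (D := T - c)
        (fun i j a hij h h' => by have := ha _ _ _ _ _ hij h'; omega)
        (fun i j hij => hb c i j hcT hij) (hd c hcT)
      have h2 : PM k (JF u (N c) ∪ {m | 1 ≤ m x}) (n + 3) := by
        refine pm_union (JF_up u hup') (pow_up x 1) (pm_shift (Finsupp.single x 1)
          (fun m => ⟨fun hm => ?_, ?_⟩) h1) (h1.mono (by omega)) ((pm_pow x 1).mono (by omega))
        · obtain ⟨a, rfl⟩ := ex_add hm.2
          exact ⟨a, fun i j hij => by simpa [sx] using hm.1 i j hij, rfl⟩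
        · rintro ⟨a, h, rfl⟩
          exact ⟨fun i j hij => by simpa [sx] using h i j hij, by simp⟩
      refine pm_left (E' := {m | c ≤ m x}) (fun m hm m' => hm.imp (JX_up u hup m · m')
        (pow_up x _ m · m')) (pow_up x c) (pm_shift (Finsupp.single x c)
          (fun m => ⟨fun hm => ?_, ?_⟩) h2) ((ih (by omega)).congr fun m => ?_)
          ((pm_pow x c).mono (by omega))
      · obtain ⟨a, rfl⟩ := ex_add hm.2
        refine ⟨a, ?_, rfl⟩
        by_cases e : a x = 0
        · rcases hm.1 with h | h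
          · exact Or.inl fun i j hij => by simpa [sx, e] using h i j hij
          · simp [e] at h
        · exact Or.inr (Nat.one_le_iff_ne_zero.2 e)
      · rintro ⟨a, h, rfl⟩
        refine ⟨?_, by simp⟩
        rcases h with h | h
        · exact Or.inl fun i j hij => hup _ _ _ _ _ _ _ _ (h i j hij) (by simp) (by simp) (by simp)
        · right
          have : 1 ≤ a x := h
          simp only [Set.mem_ofPred_eq, Finsupp.add_apply, Finsupp.single_eq_same]
          omega
      · simp only [Set.mem_union, Set.mem_ofPred_eq]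
        constructor
        · rintro (h | h)
          · exact Or.inl (Or.inl h)
          · exact Or.inr h
        · rintro ((h | h) | h)
          · exact Or.inl h
          · exact Or.inr (by omega)
          · exact Or.inr h
  refine (key T le_rfl).congr fun m => ⟨?_, Or.inl⟩
  rintro (h | h)
  · exact h
  · exact fun i j hij => hup _ _ _ _ _ _ _ _ (hc i j hij) h (Nat.zero_le _) (Nat.zero_le _)

end Pool.Agent.PdSym
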