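import Pool.Agent.H.MP_0c67ff_ag.B

set_option autoImplicit false

namespace Pool.Agent.PdSym

open Pool.Agent.PdOne Pool.Agent.PdFun MvPolynomial

section mv
variable {S : Type} [CommRing S] (I I' : Ideal S)

/-- First map of the Mayer-Vietoris sequence. -/
def mvIn : ↥(I ⊓ I') →ₗ[S] I × I' where
  toFun k := (⟨k, k.2.1⟩, ⟨-k, I'.neg_mem k.2.2⟩)
  map_add' a b := by ext <;> simp; ring
  map_smul' a b := by ext <;> simp

/-- Second map of the Mayer-Vietoris sequence. -/
def mvOut : I × I' →ₗ[S] ↥(I ⊔ I') where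
  toFun p := ⟨p.1 + p.2, Submodule.add_mem_sup p.1.2 p.2.2⟩
  map_add' a b := by ext; simp; ring
  map_smul' a b := by ext; simp; ring

lemma mv_exact : Function.Exact (mvIn I I') (mvOut I I') := by
  rintro ⟨i, s⟩
  constructor
  · intro h
    have h1 : (i : S) + s = 0 := congrArg Subtype.val h
    have h2 : (i : S) = -s := by linear_combination h1
    refine ⟨⟨i, i.2, h2 ▸ I'.neg_mem s.2⟩, ?_⟩
    ext
    · rfl
    · simp [mvIn, h2]
  · rintro ⟨k, hk⟩
    rw [← hk]
    ext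
    simp [mvIn, mvOut]

lemma mvIn_inj : Function.Injective (mvIn I I') := fun _ _ h =>
  Subtype.ext (congrArg (fun p : I × I' => (p.1 : S)) h)

lemma mvOut_surj : Function.Surjective (mvOut I I') := by
  rintro ⟨r, hr⟩
  obtain ⟨i, hi, s, hs, rfl⟩ := Submodule.mem_sup.1 hr
  exact ⟨(⟨i, hi⟩, ⟨s, hs⟩), rfl⟩

variable {I I'}

lemma pd_pair {n : ℕ} (h : PD S I n) (h' : PD S I' n) : PD S (I × I') n :=
  pd2 _ _ Function.Exact.inl_snd LinearMap.inl_injective LinearMap.snd_surjective h h'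

lemma mv_sup {n : ℕ} (h0 : PD S ↥(I ⊓ I') n) (h : PD S I (n + 1)) (h' : PD S I' (n + 1)) :
    PD S ↥(I ⊔ I') (n + 1) :=
  pd3 _ _ (mv_exact I I') (mvIn_inj I I') (mvOut_surj I I') h0 (pd_pair h h')

lemma mv_inf {n : ℕ} (h : PD S I n) (h' : PD S I' n) (h0 : PD S ↥(I ⊔ I') (n + 1)) :
    PD S ↥(I ⊓ I') n :=
  pd1 _ _ (mv_exact I I') (mvIn_inj I I') (mvOut_surj I I') (pd_pair h h') h0

lemma mv_left {n : ℕ} (h : PD S ↥(I ⊓ I') n) (h' : PD S ↥(I ⊔ I') n) (h0 : PD S I' (n + 1)) :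
    PD S I n :=
  pd1 _ _ Function.Exact.inl_snd LinearMap.inl_injective LinearMap.snd_surjective
    (pd2 _ _ (mv_exact I I') (mvIn_inj I I') (mvOut_surj I I') h h') h0

lemma pd_colon (I K : Ideal S) (g : S) (hK : ∀ c, c ∈ K ↔ c * g ∈ I) {n : ℕ}
    (h1 : PD S I (n + 1)) (h2 : PD S ↥(I ⊔ Ideal.span {g}) (n + 2)) : PD S K (n + 1) :=
  pd1 _ _ (c_exact I K g hK) (cIn_inj I K g hK) (cOut_surj I g) (pd_prod.2 h1) h2
end mv

variable {σ : Type} {k : Type} [Field k]

/-- Upward closed sets of exponents. -/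
def Up (E : Set (σ →₀ ℕ)) : Prop := ∀ m ∈ E, ∀ m', m + m' ∈ E

variable (k) in
/-- Projective dimension bound for the monomial ideal of a set of exponents. -/
def PM (E : Set (σ →₀ ℕ)) (n : ℕ) : Prop := PD (MvPolynomial σ k) (MI k E) n

lemma PM.mono {E : Set (σ →₀ ℕ)} {n m : ℕ} (h : PM k E n) (hnm : n ≤ m) : PM k E m :=
  PD.mono h hnm

lemma PM.congr {E E' : Set (σ →₀ ℕ)} {n : ℕ} (h : PM k E n) (he : ∀ m, m ∈ E ↔ m ∈ E') :
    PM k E' n := by
  rwa [← Set.ext he]

lemma MI_union (E E' : Set (σ →₀ ℕ)) : MI k (E ∪ E') = MI k E ⊔ MI k E' := by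
  rw [MI, MI, MI, Set.image_union, Ideal.span_union]

lemma MI_inter {E E' : Set (σ →₀ ℕ)} (h : Up E) (h' : Up E') :
    MI k (E ∩ E') = MI k E ⊓ MI k E' := by
  ext f
  have h2 : Up (E ∩ E') := fun m hm m' => ⟨h m hm.1 m', h' m hm.2 m'⟩
  rw [Ideal.mem_inf, mem_MI h, mem_MI h', mem_MI h2]
  exact ⟨fun a => ⟨fun m hm => (a m hm).1, fun m hm => (a m hm).2⟩,
    fun a m hm => ⟨a.1 m hm, a.2 m hm⟩⟩

lemma pm_union {E E' : Set (σ →₀ ℕ)} (h : Up E) (h' : Up E') {n : ℕ} (h0 : PM k (E ∩ E') n)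
    (h1 : PM k E (n + 1)) (h2 : PM k E' (n + 1)) : PM k (E ∪ E') (n + 1) := by
  rw [PM, MI_union]
  rw [PM, MI_inter h h'] at h0
  exact mv_sup h0 h1 h2

lemma pm_inter {E E' : Set (σ →₀ ℕ)} (h : Up E) (h' : Up E') {n : ℕ} (h1 : PM k E n)
    (h2 : PM k E' n) (h0 : PM k (E ∪ E') (n + 1)) : PM k (E ∩ E') n := by
  rw [PM, MI_inter h h']
  rw [PM, MI_union] at h0
  exact mv_inf h1 h2 h0

lemma pm_univ : PM k (Set.univ : Set (σ →₀ ℕ)) 1 := by
  have : MI k (Set.univ : Set (σ →₀ ℕ)) = ⊤ := by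
    rw [eq_top_iff]
    intro f _
    exact (mem_MI fun _ _ _ => Set.mem_univ _).2 fun _ _ => trivial
  rw [PM, this]
  exact PD.equiv pd_proj Submodule.topEquiv.symm

lemma pm_empty : PM k (∅ : Set (σ →₀ ℕ)) 0 := by
  have : MI k (∅ : Set (σ →₀ ℕ)) = ⊥ := by simp [MI]
  rw [PM, this]
  exact pd_zero

lemma pm_shift_iff {E E' : Set (σ →₀ ℕ)} (e : σ →₀ ℕ) (h : ∀ m, m ∈ E' ↔ ∃ a ∈ E, a + e = m)
    {n : ℕ} : PM k E n ↔ PM k E' n := by
  have inj : Function.Injective (LinearMap.mulLeft (MvPolynomial σ k) (monomial e (1 : k))) :=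
    fun p q hpq => mul_left_cancel₀ (by simp) hpq
  have : MI k E' = Submodule.map (LinearMap.mulLeft (MvPolynomial σ k) (monomial e (1 : k)))
      (MI k E) := by
    rw [MI, MI, Ideal.span, Ideal.span, Submodule.map_span, Set.image_image]
    congr 1
    ext f
    constructor
    · rintro ⟨m, hm, rfl⟩
      obtain ⟨a, ha, rfl⟩ := (h m).1 hm
      exact ⟨a, ha, by simp [monomial_mul, add_comm]⟩
    · rintro ⟨a, ha, rfl⟩
      exact ⟨a + e, (h _).2 ⟨a, ha, rfl⟩, by simp [monomial_mul, add_comm]⟩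
  rw [PM, PM, this]
  exact ⟨fun h1 => h1.equiv (Submodule.equivMapOfInjective _ inj _),
    fun h1 => h1.equiv (Submodule.equivMapOfInjective _ inj _).symm⟩

lemma pm_shift {E E' : Set (σ →₀ ℕ)} (e : σ →₀ ℕ) (h : ∀ m, m ∈ E' ↔ ∃ a ∈ E, a + e = m) {n : ℕ}
    (h1 : PM k E n) : PM k E' n := (pm_shift_iff e h).1 h1

lemma pm_left {E E' : Set (σ →₀ ℕ)} (h : Up E) (h' : Up E') {n : ℕ} (h1 : PM k (E ∩ E') n)
    (h2 : PM k (E ∪ E') n) (h0 : PM k E' (n + 1)) : PM k E n := by
  rw [PM, MI_inter h h'] at h1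
  rw [PM, MI_union] at h2
  exact mv_left h1 h2 h0

variable {V : Type} [Fintype V] (u : V ↪ σ)

/-- The exponent with prescribed values on the variables `u i`. -/
noncomputable def ev (f : V → ℕ) : σ →₀ ℕ := (Finsupp.equivFunOnFinite.symm f).embDomain u

@[simp] lemma ev_u (f : V → ℕ) (i : V) : ev u f (u i) = f i := by
  simp [ev, Finsupp.embDomain_apply_self]

lemma ev_out (f : V → ℕ) {s : σ} (h : ∀ i, u i ≠ s) : ev u f s = 0 :=
  Finsupp.embDomain_of_notMem_range _ _ _ fun ⟨i, hi⟩ => h i hi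

lemma ev_le {f : V → ℕ} {m : σ →₀ ℕ} (h : ∀ i, f i ≤ m (u i)) : ∃ a, a + ev u f = m := by
  have : ev u f ≤ m := by
    intro s
    by_cases hs : ∃ i, u i = s
    · obtain ⟨i, rfl⟩ := hs
      simpa using h i
    · rw [ev_out u f fun i hi => hs ⟨i, hi⟩]
      exact Nat.zero_le _
  obtain ⟨c, hc⟩ := le_iff_exists_add.1 this
  exact ⟨c, by rw [hc, add_comm]⟩

lemma pm_box (B : V → ℕ → Prop) (hB : ∀ i a b, B i a → a ≤ b → B i b) :
    PM k {m : σ →₀ ℕ | ∀ i, B i (m (u i))} 1 := by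
  classical
  by_cases h : ∀ i, ∃ a, B i a
  · refine pm_shift (ev u fun i => Nat.find (h i)) (fun m => ⟨fun hm => ?_, ?_⟩) pm_univ
    · obtain ⟨a, ha⟩ := ev_le u (f := fun i => Nat.find (h i)) (m := m)
        fun i => Nat.find_min' _ (hm i)
      exact ⟨a, trivial, ha⟩
    · rintro ⟨a, -, rfl⟩ i
      exact hB i _ _ (Nat.find_spec (h i)) (by simp)
  · exact (pm_empty.mono (by omega)).congr fun m =>
      ⟨fun a => a.elim, fun hm => h fun i => ⟨_, hm i⟩⟩

section pairs
variable [DecidableEq σ] {L : Type} [DecidableEq L] (a b : L → σ)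

/-- Exponents of the sum of a product of ideals of two variables and an ideal of variables. -/
def LL (P : Finset L) (G : Finset σ) : Set (σ →₀ ℕ) :=
  {m | (∀ l ∈ P, m (a l) ≠ 0 ∨ m (b l) ≠ 0) ∨ ∃ g ∈ G, m g ≠ 0}

/-- Exponents of an ideal of variables. -/
def VG (G : Finset σ) : Set (σ →₀ ℕ) := {m | ∃ g ∈ G, m g ≠ 0}

omit [DecidableEq σ] in
lemma VG_up (G : Finset σ) : Up (VG G) := fun m ⟨g, hg, h⟩ m' =>
  ⟨g, hg, by rw [Finsupp.add_apply]; omega⟩

omit [DecidableEq σ] [DecidableEq L] in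
lemma LL_up (P : Finset L) (G : Finset σ) : Up (LL a b P G) := by
  rintro m (h | h) m'
  · refine Or.inl fun l hl => ?_
    have := h l hl
    simp only [Finsupp.add_apply]
    omega
  · exact Or.inr (VG_up G m h m')

omit [DecidableEq σ] in
lemma MI_VG (G : Finset σ) : MI k (VG G) = Ideal.span (X '' (G : Set σ)) := by
  ext f
  rw [mem_MI (VG_up G), mem_ideal_span_X_image]
  rfl

lemma pm_VG (G : Finset σ) : PM k (VG G) G.card := by
  rw [PM, MI_VG]
  exact pd_vars G

lemma LL_inter (P : Finset L) (G : Finset σ) (l : L) (m : σ →₀ ℕ) :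
    m ∈ LL a b P G ∩ VG (insert (a l) (insert (b l) G)) ↔ m ∈ LL a b (insert l P) G := by
  simp only [LL, VG, Set.mem_inter_iff, Set.mem_ofPred_eq, Finset.mem_insert, exists_eq_or_imp,
    forall_eq_or_imp]
  tauto

omit [DecidableEq L] in
lemma LL_union (P : Finset L) (G : Finset σ) (l : L) (m : σ →₀ ℕ) :
    m ∈ LL a b P (insert (a l) (insert (b l) G)) ↔
      m ∈ LL a b P G ∪ VG (insert (a l) (insert (b l) G)) := by
  simp only [LL, VG, Set.mem_union, Set.mem_ofPred_eq, Finset.mem_insert, exists_eq_or_imp]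
  tauto

lemma card_ins (s t : σ) (G : Finset σ) : (insert s (insert t G)).card ≤ G.card + 2 :=
  (Finset.card_insert_le _ _).trans (Nat.succ_le_succ (Finset.card_insert_le _ _))

lemma pm_LL (P : Finset L) : ∀ G : Finset σ, PM k (LL a b P G) (P.card + G.card + 1) := by
  induction P using Finset.induction_on with
  | empty =>
    intro G
    exact (pm_univ.congr fun m => ⟨fun _ => Or.inl (by simp), fun _ => trivial⟩).mono (by omega)
  | insert l P hl ih =>
    intro G
    have hc := card_ins (a l) (b l) G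
    rw [Finset.card_insert_of_notMem hl]
    refine (pm_inter (LL_up a b P G) (VG_up _) ((ih G).mono (by omega))
      ((pm_VG _).mono (by omega)) ?_).congr (LL_inter a b P G l)
    exact ((ih _).congr (LL_union a b P G l)).mono (by omega)

lemma not_pm_LL [Finite σ] (ha : Function.Injective a) (hb : Function.Injective b)
    (hab : ∀ l l', a l ≠ b l') (P : Finset L) : ∀ (l : L) (G : Finset σ), l ∉ P →
      (∀ l' ∈ insert l P, a l' ∉ G ∧ b l' ∉ G) →
        ¬ PM k (LL a b (insert l P) G) (P.card + G.card + 1) := by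
  have hc : ∀ (l : L) (G : Finset σ), a l ∉ G → b l ∉ G →
      (insert (a l) (insert (b l) G)).card = G.card + 2 := fun l G h1 h2 => card_G (hab l l) h1 h2
  induction P using Finset.induction_on with
  | empty =>
    intro l G _ h hp
    have h1 := hp.congr (E' := VG (insert (a l) (insert (b l) G))) fun m => by
      simp only [LL, VG, Set.mem_ofPred_eq, Finset.mem_insert, exists_eq_or_imp, forall_eq_or_imp,
        Finset.notMem_empty, false_imp_iff, implies_true, and_true, or_assoc]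
    rw [PM, MI_VG] at h1
    refine not_pd_vars (insert (a l) (insert (b l) G)) _ 1 ?_ ?_ ?_ h1
    · rw [mem_ideal_span_X_image]
      intro h2
      obtain ⟨i, -, h3⟩ := h2 0 (by simp)
      simp at h3
    · intro i hi
      rw [mul_one]
      exact Ideal.subset_span ⟨i, hi, rfl⟩
    · rw [hc l G (h l (by simp)).1 (h l (by simp)).2]
      simp
  | insert l' P hl' ih =>
    intro l G hl h hp
    have h1 := hc l G (h l (by simp)).1 (h l (by simp)).2
    refine ih l' (insert (a l) (insert (b l) G)) hl' (fun j hj => ?_) ?_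
    · have hne : j ≠ l := fun e => hl (e ▸ hj)
      have := h j (Finset.mem_insert_of_mem hj)
      simp [ha.eq_iff, hb.eq_iff, hne, hab, (hab l j).symm, this]
    · rw [Finset.card_insert_of_notMem hl'] at hp
      have h2 := pm_LL (k := k) a b (insert l' P) G
      rw [Finset.card_insert_of_notMem hl'] at h2
      refine ((pm_union (LL_up a b _ G) (VG_up _)
        (hp.congr fun m => (LL_inter a b _ G l m).symm) (h2.mono (by omega))
        ((pm_VG _).mono (by omega))).congr fun m => (LL_union a b _ G l m).symm).mono (by omega)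

end pairs

end Pool.Agent.PdSym
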