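import Pool.Agent.H.MP_9d9f8d_ag.B

set_option autoImplicit false

namespace Pool.Agent.PdSym

open Pool.Agent.PdOne Pool.Agent.PdFun MvPolynomial

/-- Exponents of a primary component, in three variables. -/
def Gen (c p : ℕ) (U : ℕ → Prop) (a α β : ℕ) : Prop :=
  2 * c + 1 ≤ 2 * a + α + β ∨ (2 * a + α + β = 2 * c ∧ (2 ≤ a ∨
    (a = 0 ∧ (β + 1 = c ∨ β + 1 = c + p)) ∨ (a = 1 ∧ ∃ s, U s ∧ β + 2 = c + s)))

/-- Exponents of the powers of a primary component. -/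
def In (c p : ℕ) (U : ℕ → Prop) : ℕ → ℕ → ℕ → ℕ → Prop
  | 0, _, _, _ => True
  | t + 1, a, α, β => ∃ a' α' β', Gen c p U a' α' β' ∧ ∃ a'' α'' β'', In c p U t a'' α'' β'' ∧
      a = a'' + a' ∧ α = α'' + α' ∧ β = β'' + β'

variable {c p : ℕ} {U : ℕ → Prop}

lemma Gen.up {a α β a' α' β' : ℕ} (h : Gen c p U a α β) (h1 : a ≤ a') (h2 : α ≤ α')
    (h3 : β ≤ β') : Gen c p U a' α' β' := by
  by_cases e : a = a' ∧ α = α' ∧ β = β'
  · obtain ⟨rfl, rfl, rfl⟩ := e
    exact h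
  · left
    rcases h with h | ⟨h, -⟩ <;> omega

lemma Gen.weight {a α β : ℕ} (h : Gen c p U a α β) : 2 * c ≤ 2 * a + α + β := by
  rcases h with h | ⟨h, -⟩ <;> omega

lemma In.up : ∀ {t a α β a' α' β' : ℕ}, In c p U t a α β → a ≤ a' → α ≤ α' → β ≤ β' →
    In c p U t a' α' β'
  | 0, _, _, _, _, _, _, _, _, _, _ => trivial
  | _ + 1, _, _, _, a', α', β', ⟨a1, α1, β1, h, a2, α2, β2, h', e1, e2, e3⟩, h1, h2, h3 =>
    ⟨a' - a2, α' - α2, β' - β2, h.up (by omega) (by omega) (by omega), a2, α2, β2, h', by omega,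
      by omega, by omega⟩

lemma In.weight : ∀ {t a α β : ℕ}, In c p U t a α β → 2 * (c * t) ≤ 2 * a + α + β
  | 0, _, _, _, _ => by simp
  | t + 1, _, _, _, ⟨a1, α1, β1, h, a2, α2, β2, h', e1, e2, e3⟩ => by
    have := h.weight
    have := h'.weight
    rw [Nat.mul_succ]; omega

lemma In.step {t a α β : ℕ} (a' α' β' : ℕ) (h : Gen c p U a' α' β') (h1 : a' ≤ a) (h2 : α' ≤ α)
    (h3 : β' ≤ β) (h' : In c p U t (a - a') (α - α') (β - β')) : In c p U (t + 1) a α β :=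
  ⟨a', α', β', h, _, _, _, h', by omega, by omega, by omega⟩

lemma In.near (hp : 1 ≤ p) (hc : 2 * p + 4 ≤ c) : ∀ (t a α β : ℕ), α ≤ β + 2 * p → β ≤ α + 2 * p →
    2 * (c * (t + 1)) ≤ 2 * a + α + β → (2 * (c * (t + 1)) + 1 ≤ 2 * a + α + β ∨ 2 ≤ a) →
      In c p U (t + 1) a α β
  | 0, a, α, β, _, _, h3, h4 => In.step a α β (by
      by_cases e : 2 * c + 1 ≤ 2 * a + α + β
      · exact Or.inl e
      · exact Or.inr ⟨by omega, Or.inl (by omega)⟩) le_rfl le_rfl le_rfl trivial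
  | t + 1, a, α, β, h1, h2, h3, h4 => by
    have h5 : c ≤ c * (t + 1) := Nat.le_mul_of_pos_right _ (by omega)
    rw [Nat.mul_succ] at h3 h4
    by_cases e1 : c + 2 ≤ a
    · exact In.step c 0 0 (Or.inr ⟨by omega, Or.inl (by omega)⟩) (by omega) (by omega) (by omega)
        (In.near hp hc t _ _ _ (by omega) (by omega) (by omega) (by omega))
    by_cases e2 : 4 ≤ a
    · exact In.step (a - 2) (c + 2 - a) (c + 2 - a) (Or.inr ⟨by omega, Or.inl (by omega)⟩)
        (by omega) (by omega) (by omega)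
        (In.near hp hc t _ _ _ (by omega) (by omega) (by omega) (by omega))
    by_cases e3 : β ≤ α
    · exact In.step 0 (c + 1) (c - 1) (Or.inr ⟨by omega, Or.inr (Or.inl ⟨rfl, by omega⟩)⟩)
        (by omega) (by omega) (by omega)
        (In.near hp hc t _ _ _ (by omega) (by omega) (by omega) (by omega))
    · exact In.step 0 (c + 1 - p) (c + p - 1) (Or.inr ⟨by omega, Or.inr (Or.inl ⟨rfl, by omega⟩)⟩)
        (by omega) (by omega) (by omega)
        (In.near hp hc t _ _ _ (by omega) (by omega) (by omega) (by omega))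

lemma In.exact0 : ∀ {t α β : ℕ}, In c p U t 0 α β → α + β = 2 * (c * t) →
    ∃ j, β + t = c * t + p * j
  | 0, _, _, _, h => ⟨0, by omega⟩
  | t + 1, _, _, ⟨a1, α1, β1, h, a2, α2, β2, h', e1, e2, e3⟩, h0 => by
    have := h.weight
    have := h'.weight
    rw [Nat.mul_succ] at h0 ⊢
    obtain rfl : a2 = 0 := by omega
    obtain ⟨j, hj⟩ := h'.exact0 (by omega)
    rcases h with h | ⟨-, h | ⟨-, h | h⟩ | h⟩
    · omega
    · omega
    · exact ⟨j, by omega⟩
    · exact ⟨j + 1, by rw [Nat.mul_succ]; omega⟩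
    · omega

lemma In.exact1 : ∀ {t α β : ℕ}, In c p U t 1 α β → 2 + α + β = 2 * (c * t) →
    ∃ s j, U s ∧ β + t + 1 = c * t + s + p * j
  | 0, _, _, _, h => by omega
  | t + 1, _, _, ⟨a1, α1, β1, h, a2, α2, β2, h', e1, e2, e3⟩, h0 => by
    have := h.weight
    have := h'.weight
    rw [Nat.mul_succ] at h0 ⊢
    rcases h with h | ⟨-, h | ⟨rfl, h⟩ | ⟨rfl, s, hs, h⟩⟩
    · omega
    · omega
    · obtain rfl : a2 = 1 := by omega
      obtain ⟨s, j, hs, hj⟩ := h'.exact1 (by omega)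
      rcases h with h | h
      · exact ⟨s, j, hs, by omega⟩
      · exact ⟨s, j + 1, hs, by rw [Nat.mul_succ]; omega⟩
    · obtain rfl : a2 = 0 := by omega
      obtain ⟨j, hj⟩ := h'.exact0 (by omega)
      exact ⟨s, j, hs, by omega⟩

lemma In.mk0 (hc : 2 * p + 4 ≤ c) : ∀ (t j α β : ℕ), j ≤ t → α + β = 2 * (c * t) →
    β + t = c * t + p * j → In c p U t 0 α β
  | 0, _, _, _, _, _, _ => trivial
  | t + 1, 0, α, β, _, h1, h2 => by
    have h5 : t ≤ c * t := Nat.le_mul_of_pos_left _ (by omega)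
    rw [Nat.mul_succ] at h1 h2
    exact In.step 0 (c + 1) (c - 1) (Or.inr ⟨by omega, Or.inr (Or.inl ⟨rfl, by omega⟩)⟩)
      (by omega) (by omega) (by omega) (In.mk0 hc t 0 _ _ (by omega) (by omega) (by omega))
  | t + 1, j + 1, α, β, h0, h1, h2 => by
    have h5 : t ≤ c * t := Nat.le_mul_of_pos_left _ (by omega)
    have h6 : p * j ≤ c * t := Nat.mul_le_mul (by omega) (by omega)
    rw [Nat.mul_succ] at h1 h2
    rw [Nat.mul_succ] at h2
    exact In.step 0 (c + 1 - p) (c + p - 1) (Or.inr ⟨by omega, Or.inr (Or.inl ⟨rfl, by omega⟩)⟩)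
      (by omega) (by omega) (by omega) (In.mk0 hc t j _ _ (by omega) (by omega) (by omega))

lemma diag0 (hp : 1 ≤ p) (hc : 2 * p + 4 ≤ c) (t : ℕ) :
    In c p U t 0 (c * t) (c * t) ↔ ∃ j, t = p * j := by
  constructor
  · intro h
    obtain ⟨j, hj⟩ := h.exact0 (by omega)
    exact ⟨j, by omega⟩
  · rintro ⟨j, hj⟩
    have : j ≤ p * j := Nat.le_mul_of_pos_left _ hp
    exact In.mk0 hc t j _ _ (by omega) (by omega) (by omega)

lemma diag1 (hp : 1 ≤ p) (hc : 2 * p + 4 ≤ c) (hU : ∀ s, U s → 1 ≤ s ∧ s ≤ c) (t : ℕ) :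
    In c p U (t + 1) 1 (c * (t + 1) - 1) (c * (t + 1) - 1) ↔ ∃ s j, U s ∧ t + 1 = s + p * j := by
  have h5 : t ≤ c * t := Nat.le_mul_of_pos_left _ (by omega)
  constructor
  · intro h
    obtain ⟨s, j, hs, hj⟩ := h.exact1 (by rw [Nat.mul_succ]; omega)
    rw [Nat.mul_succ] at hj
    exact ⟨s, j, hs, by omega⟩
  · rintro ⟨s, j, hs, hj⟩
    have := hU s hs
    have : j ≤ p * j := Nat.le_mul_of_pos_left _ hp
    rw [Nat.mul_succ]
    exact In.step 1 (c - s) (c + s - 2) (Or.inr ⟨by omega, Or.inr (Or.inr ⟨rfl, s, hs, by omega⟩)⟩)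
      (by omega) (by omega) (by omega) (In.mk0 hc t j _ _ (by omega) (by omega) (by omega))

variable {σ : Type} {k : Type} [Field k] {x y z : σ}

lemma In_up (t : ℕ) : Up {m : σ →₀ ℕ | In c p U t (m x) (m y) (m z)} := fun _ hm _ =>
  In.up hm (by simp) (by simp) (by simp)

lemma Gen_up : Up {m : σ →₀ ℕ | Gen c p U (m x) (m y) (m z)} := fun _ hm _ =>
  Gen.up hm (by simp) (by simp) (by simp)

lemma MI_In (hxy : x ≠ y) (hxz : x ≠ z) (hyz : y ≠ z) :
    ∀ t, MI k {m : σ →₀ ℕ | Gen c p U (m x) (m y) (m z)} ^ t =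
      MI k {m : σ →₀ ℕ | In c p U t (m x) (m y) (m z)}
  | 0 => by
    rw [pow_zero, Ideal.one_eq_top, eq_comm, eq_top_iff]
    exact fun f _ => (mem_MI (In_up 0)).2 fun _ _ => trivial
  | t + 1 => by
    rw [pow_succ, MI_In hxy hxz hyz t]
    refine MI_mul fun m => ⟨?_, ?_⟩
    · rintro ⟨a1, α1, β1, h, a2, α2, β2, h', e1, e2, e3⟩
      obtain ⟨m1, rfl⟩ := ex_add (m := m) (x := x) (c := a1) (by omega)
      obtain ⟨m2, rfl⟩ := ex_add (m := m1) (x := y) (c := α1) (by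
        simp [hxy] at e2; omega)
      obtain ⟨m3, rfl⟩ := ex_add (m := m2) (x := z) (c := β1) (by
        simp [hxz, hyz] at e3; omega)
      simp [hxy, hxz, hyz, hxy.symm, hxz.symm, hyz.symm] at e1 e2 e3
      refine ⟨m3, ?_, Finsupp.single z β1 + Finsupp.single y α1 + Finsupp.single x a1, ?_, by abel⟩
      · simpa [e1, e2, e3] using h'
      · simpa [hxy, hxz, hyz, hxy.symm, hxz.symm, hyz.symm] using h
    · rintro ⟨a, ha, b, hb, rfl⟩
      exact ⟨_, _, _, hb, _, _, _, ha, rfl, rfl, rfl⟩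

end Pool.Agent.PdSym
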