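import Pool.Agent.H.MP_9d9f8d_ag.C
import Pool.Agent.H.MP_9d9f8d_ag.D

set_option autoImplicit false

namespace Pool.Agent.PdSym

open Pool.Agent.PdOne Pool.Agent.PdFun MvPolynomial

lemma exists_s0 {φ : ℕ → ℕ} {p : ℕ} (hp : 1 ≤ p) (hφ : ∀ t, p + 1 ≤ t → φ (t + p) = φ t) (τ : ℕ)
    (hτ : 1 ≤ τ) : ∃ s0, 1 ≤ s0 ∧ s0 ≤ 2 * p ∧ φ s0 = φ τ ∧ (∃ j, τ = s0 + p * j) ∧
      ¬ (s0 ≤ p ∧ ∃ j, τ = s0 + p + p * j) ∧ ∀ s, 1 ≤ s → s ≤ 2 * p → s ≠ s0 →
        (∃ j, τ = s + p * j) → s ≤ p ∧ ∃ j, τ = s + p + p * j := by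
  by_cases h : τ ≤ p
  · refine ⟨τ, hτ, by omega, rfl, ⟨0, by simp⟩, fun ⟨_, j, hj⟩ => by omega, ?_⟩
    rintro s h1 h2 h3 ⟨_ | j, hj⟩
    · omega
    · rw [Nat.mul_succ] at hj; omega
  · have h1 := Nat.mod_add_div (τ - p - 1) p
    have h2 := Nat.mod_lt (τ - p - 1) hp
    generalize (τ - p - 1) % p = r at h1 h2
    generalize (τ - p - 1) / p = q at h1
    have h3 : ∀ j, φ (p + 1 + r + p * j) = φ (p + 1 + r) := by
      intro j
      induction j with
      | zero => simp
      | succ j ih => rw [Nat.mul_succ, ← add_assoc, hφ _ (by omega), ih]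
    refine ⟨p + 1 + r, by omega, by omega, by rw [← h3 q]; congr 1; omega, ⟨q, by omega⟩,
      fun h => by omega, ?_⟩
    rintro s h4 h5 h6 ⟨j, hj⟩
    have h7 : s ≤ p := by
      by_contra h7
      rcases lt_trichotomy j q with h8 | rfl | h8
      · have : p * (j + 1) ≤ p * q := Nat.mul_le_mul_left _ h8
        rw [Nat.mul_succ] at this; omega
      · omega
      · have : p * (q + 1) ≤ p * j := Nat.mul_le_mul_left _ h8
        rw [Nat.mul_succ] at this; omega
    refine ⟨h7, ?_⟩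
    rcases j with _ | j
    · omega
    · exact ⟨j, by rw [Nat.mul_succ] at hj; omega⟩

variable {σ : Type} {k : Type} [Field k] {V : Type} [Fintype V] (p : ℕ) (grp idx o : V → ℕ)

/-- Starting times of the absence of a pair. -/
def UU (i j : V) (s : ℕ) : Prop :=
  grp i = grp j ∧ ((idx i ≠ idx j ∧ s = grp i) ∨ (grp i ≤ p ∧ s = grp i + p))

/-- The membership condition of an unordered pair. -/
def NN (t a : ℕ) (i j : V) (α β : ℕ) : Prop :=
  (o i < o j → In (2 * p + 4) p (UU p grp idx i j) t a α β) ∧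
    (o j < o i → In (2 * p + 4) p (UU p grp idx j i) t a β α)

/-- The membership condition after adding one monomial. -/
def NB (B : Prop) (s0 t a : ℕ) (i j : V) (α β : ℕ) : Prop :=
  NN p grp idx o t a i j α β ∨ (B ∧ grp i = s0 ∧ grp j = s0 ∧ 1 ≤ a ∧
    (2 * p + 4) * t - 1 ≤ α ∧ (2 * p + 4) * t - 1 ≤ β)

variable {p grp idx o}

omit [Fintype V] in
lemma UU_symm (i j : V) : UU p grp idx i j = UU p grp idx j i := by
  funext s
  apply propext
  unfold UU
  omega

omit [Fintype V] in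
lemma NN.up {t a a' α β α' β' : ℕ} {i j : V} (h : NN p grp idx o t a i j α β) (h1 : a ≤ a')
    (h2 : α ≤ α') (h3 : β ≤ β') : NN p grp idx o t a' i j α' β' :=
  ⟨fun e => (h.1 e).up h1 h2 h3, fun e => (h.2 e).up h1 h3 h2⟩

omit [Fintype V] in
lemma NN.weight (ho : Function.Injective o) {t a α β : ℕ} {i j : V} (hij : i ≠ j)
    (h : NN p grp idx o t a i j α β) : 2 * ((2 * p + 4) * t) ≤ 2 * a + α + β := by
  rcases lt_trichotomy (o i) (o j) with e | e | e
  · exact (h.1 e).weight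
  · exact absurd (ho e) hij
  · have := (h.2 e).weight; omega

omit [Fintype V] in
lemma NN.near (hp : 1 ≤ p) {t a α β : ℕ} (i j : V) (h1 : α ≤ β + 1) (h2 : β ≤ α + 1)
    (h3 : 2 * ((2 * p + 4) * (t + 1)) ≤ 2 * a + α + β)
    (h4 : 2 * ((2 * p + 4) * (t + 1)) + 1 ≤ 2 * a + α + β ∨ 2 ≤ a) :
    NN p grp idx o (t + 1) a i j α β :=
  ⟨fun _ => In.near hp le_rfl t _ _ _ (by omega) (by omega) h3 h4,
    fun _ => In.near hp le_rfl t _ _ _ (by omega) (by omega) (by omega) (by omega)⟩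

omit [Fintype V] in
lemma NN_diag (ho : Function.Injective o) {t a α : ℕ} {i j : V} (hij : i ≠ j) :
    NN p grp idx o t a i j α α ↔ In (2 * p + 4) p (UU p grp idx i j) t a α α := by
  rw [NN, UU_symm j i]
  refine ⟨fun h => ?_, fun h => ⟨fun _ => h, fun _ => h⟩⟩
  rcases lt_trichotomy (o i) (o j) with e | e | e
  · exact h.1 e
  · exact absurd (ho e) hij
  · exact h.2 e

omit [Fintype V] in
lemma NN_one (hp : 1 ≤ p) (ho : Function.Injective o) (v1 : ∀ i, 1 ≤ grp i ∧ grp i ≤ 2 * p)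
    {t : ℕ} {i j : V} (hij : i ≠ j) :
    NN p grp idx o (t + 1) 1 i j ((2 * p + 4) * (t + 1) - 1) ((2 * p + 4) * (t + 1) - 1) ↔
      grp i = grp j ∧ ((idx i ≠ idx j ∧ ∃ l, t + 1 = grp i + p * l) ∨
        (grp i ≤ p ∧ ∃ l, t + 1 = grp i + p + p * l)) := by
  rw [NN_diag ho hij, diag1 hp le_rfl fun s hs => by have := v1 i; unfold UU at hs; omega]
  constructor
  · rintro ⟨s, l, ⟨h1, ⟨h2, rfl⟩ | ⟨h2, rfl⟩⟩, h3⟩
    · exact ⟨h1, Or.inl ⟨h2, l, h3⟩⟩
    · exact ⟨h1, Or.inr ⟨h2, l, h3⟩⟩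
  · rintro ⟨h1, ⟨h2, l, h3⟩ | ⟨h2, l, h3⟩⟩
    · exact ⟨_, l, ⟨h1, Or.inl ⟨h2, rfl⟩⟩, h3⟩
    · exact ⟨_, l, ⟨h1, Or.inr ⟨h2, rfl⟩⟩, h3⟩

section main
variable [DecidableEq σ] (u : V ↪ σ) {x : σ} (hx : ∀ i, u i ≠ x) (hp : 1 ≤ p)
  (ho : Function.Injective o) (v1 : ∀ i, 1 ≤ grp i ∧ grp i ≤ 2 * p) {t s0 n : ℕ}
  (a b : Fin (n + 1) → V) (ha : ∀ l, grp (a l) = s0 ∧ idx (a l) = l)
  (hb : ∀ l, grp (b l) = s0 ∧ idx (b l) = l) (hab : ∀ l, a l ≠ b l)
  (hall : ∀ i, grp i = s0 → ∃ l, i = a l ∨ i = b l)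
  (s1 : ∃ j, t + 1 = s0 + p * j) (s2 : ¬ (s0 ≤ p ∧ ∃ j, t + 1 = s0 + p + p * j))
  (s3 : ∀ s, 1 ≤ s → s ≤ 2 * p → s ≠ s0 → (∃ j, t + 1 = s + p * j) →
    s ≤ p ∧ ∃ j, t + 1 = s + p + p * j)

omit [Fintype V] in
include ha hb hall in
lemma pair_of_idx {i j : V} (hij : i ≠ j) (hi : grp i = s0) (hj : grp j = s0)
    (h : idx i = idx j) : ∃ l, (i = a l ∧ j = b l) ∨ (i = b l ∧ j = a l) := by
  obtain ⟨l, hl⟩ := hall i hi
  obtain ⟨l', hl'⟩ := hall j hj
  have : l = l' := Fin.ext (by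
    rcases hl with rfl | rfl <;> rcases hl' with rfl | rfl <;> simpa [ha, hb] using h)
  subst this
  rcases hl with rfl | rfl <;> rcases hl' with rfl | rfl
  · exact absurd rfl hij
  · exact ⟨l, Or.inl ⟨rfl, rfl⟩⟩
  · exact ⟨l, Or.inr ⟨rfl, rfl⟩⟩
  · exact absurd rfl hij

include hx hp ho v1 ha hb hab hall s1 s2 s3 in
lemma upper (B : Prop) : PM k (JX u x (NB p grp idx o B s0 (t + 1))) (n + 3) := by
  classical
  have hT : 2 * p + 4 ≤ (2 * p + 4) * (t + 1) := Nat.le_mul_of_pos_right _ (by omega)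
  refine pm_JX u (T := (2 * p + 4) * (t + 1)) ?_ hx ?_ ?_ ?_ ?_ ?_
  · rintro c i j α β c' α' β' (h | ⟨h0, h4, h5, h6, h7, h8⟩) h1 h2 h3
    · exact Or.inl (h.up h1 h2 h3)
    · exact Or.inr ⟨h0, h4, h5, by omega, by omega, by omega⟩
  · rintro c i j α β (h | ⟨h0, h4, h5, h6, h7, h8⟩)
    · exact Or.inl h.symm
    · exact Or.inr ⟨h0, h5, h4, h6, h8, h7⟩
  · rintro c i j α β hij (h | ⟨h0, h4, h5, h6, h7, h8⟩)
    · exact h.weight ho hij
    · omega
  · exact fun c i j hc _ => Or.inl (NN.near hp i j (by omega) (by omega) (by omega) (by omega))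
  · exact fun i j _ => Or.inl (NN.near hp i j (by omega) (by omega) (by omega) (by omega))
  intro c hc
  have all : ∀ C : V → V → Prop, (∀ i j, i ≠ j → C i j) → PM k (CI u C) (n + 2) := fun C h =>
    pm_cover u (fun _ => ()) C (fun _ _ _ _ => rfl) fun γ =>
      (pm_clique u _ C γ fun i j hij _ _ => h i j hij).mono (by omega)
  rcases c with _ | _ | c
  · by_cases h : ∃ j, t + 1 = p * j
    · exact all _ fun i j hij => Or.inl ((NN_diag ho hij).2 ((diag0 hp le_rfl _).2 h))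
    · refine pm_cover u id _ ?_ fun γ =>
        (pm_clique u _ _ γ fun i j hij h1 h2 => absurd (h1.trans h2.symm) hij).mono (by omega)
      rintro i j hij (h1 | h1)
      · exact absurd ((diag0 hp le_rfl _).1 ((NN_diag ho hij).1 h1)) h
      · omega
  · refine pm_cover u (fun i => if ∃ l, t + 1 = grp i + p * l then Sum.inl (grp i) else Sum.inr i)
      _ ?_ ?_
    · rintro i j hij (h1 | ⟨-, h1, h2, -⟩)
      · obtain ⟨h2, h3⟩ := (NN_one hp ho v1 hij).1 h1
        have : ∃ l, t + 1 = grp i + p * l := by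
          rcases h3 with h3 | ⟨-, l, h3⟩
          · exact h3.2
          · exact ⟨l + 1, by rw [Nat.mul_succ]; omega⟩
        rw [if_pos this, if_pos (h2 ▸ this), h2]
      · rw [if_pos (h1 ▸ s1), if_pos (h2 ▸ s1), h1, h2]
    have inl : ∀ i s, (if ∃ l, t + 1 = grp i + p * l then Sum.inl (grp i) else Sum.inr i :
        ℕ ⊕ V) = Sum.inl s → grp i = s ∧ ∃ l, t + 1 = grp i + p * l := by
      intro i s h
      split_ifs at h with h1
      exact ⟨Sum.inl_injective h, h1⟩
    rintro (s | i0)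
    · by_cases hs : s = s0
      · subst hs
        by_cases hB : B
        · exact (pm_clique u _ _ _ fun i j _ h1 h2 => Or.inr ⟨hB, (inl i _ h1).1, (inl j _ h2).1,
            le_rfl, le_rfl, le_rfl⟩).mono (by omega)
        · refine (pm_match u _ _ _ a b (fun l => ?_) (fun l => ?_) hab ?_ ?_).mono (by simp)
          · rw [(ha l).1, if_pos s1]
          · rw [(hb l).1, if_pos s1]
          · rintro l (h | h)
            · obtain ⟨-, h | h⟩ := (NN_one hp ho v1 (hab l)).1 h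
              · exact h.1 ((ha l).2.trans (hb l).2.symm)
              · exact s2 ((ha l).1 ▸ h)
            · exact hB h.1
          · intro i j hij h1 h2
            obtain ⟨h3, h4⟩ := inl i _ h1
            have h5 := (inl j _ h2).1
            by_cases e : idx i = idx j
            · exact Or.inr (pair_of_idx a b ha hb hall hij h3 h5 e)
            · exact Or.inl (Or.inl ((NN_one hp ho v1 hij).2 ⟨h3.trans h5.symm, Or.inl ⟨e, h4⟩⟩))
      · refine (pm_clique u _ _ _ fun i j hij h1 h2 => Or.inl ?_).mono (by omega)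
        obtain ⟨h3, h4⟩ := inl i _ h1
        exact (NN_one hp ho v1 hij).2 ⟨h3.trans (inl j _ h2).1.symm,
          Or.inr (s3 _ (v1 i).1 (v1 i).2 (h3 ▸ hs) h4)⟩
    · refine (pm_clique u _ _ _ fun i j hij h1 h2 => absurd ?_ hij).mono (by omega)
      split_ifs at h1 h2
      exact (Sum.inr_injective h1).trans (Sum.inr_injective h2).symm
  · exact all _ fun i j _ => Or.inl (NN.near hp i j (by omega) (by omega) (by omega) (by omega))

include hx hp ho v1 ha hb hab hall s1 s2 s3 in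
lemma lower [Finite σ] : ¬ PM k (JX u x (NN p grp idx o (t + 1))) (n + 2) := by
  classical
  intro hpm
  have hT : 2 * p + 4 ≤ (2 * p + 4) * (t + 1) := Nat.le_mul_of_pos_right _ (by omega)
  set T := (2 * p + 4) * (t + 1) with hTdef
  set e : σ →₀ ℕ := Finsupp.single x 1 + ev u fun i => if grp i = s0 then T - 1 else T
  have ex : e x = 1 := by simp [e, ev_out u _ hx]
  have eu : ∀ i, e (u i) = if grp i = s0 then T - 1 else T := fun i => by
    simp [e, Finsupp.single_eq_of_ne (hx i)]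
  have eo : ∀ m : σ →₀ ℕ, 1 ≤ m x → (∀ i, e (u i) ≤ m (u i)) → ∃ c, c + e = m := by
    intro m h1 h2
    obtain ⟨m1, rfl⟩ := ex_add h1
    obtain ⟨m2, rfl⟩ := ev_le u (f := fun i => if grp i = s0 then T - 1 else T) (m := m1)
      fun i => by simpa [eu, Finsupp.single_eq_of_ne (hx i)] using h2 i
    exact ⟨m2, by simp only [e]; abel⟩
  have big : ∀ (c α β : ℕ) i j, 2 ≤ c → T - 1 ≤ α → T - 1 ≤ β → NN p grp idx o (t + 1) c i j α β :=
    fun c α β i j h1 h2 h3 => (NN.near hp i j (a := 2) (α := T - 1) (β := T - 1) (by omega)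
      (by omega) (by omega) (by omega)).up h1 h2 h3
  have big1 : ∀ (c α β : ℕ) i j, 1 ≤ c → T - 1 ≤ α → T - 1 ≤ β → T ≤ α ∨ T ≤ β →
      NN p grp idx o (t + 1) c i j α β := by
    rintro c α β i j h1 h2 h3 (h4 | h4)
    · exact (NN.near hp i j (a := 1) (α := T) (β := T - 1) (by omega)
        (by omega) (by omega) (by omega)).up h1 h4 h3
    · exact (NN.near hp i j (a := 1) (α := T - 1) (β := T) (by omega)
        (by omega) (by omega) (by omega)).up h1 h2 h4
  have hup : ∀ c i j α β c' α' β', NN p grp idx o (t + 1) c i j α β → c ≤ c' → α ≤ α' → β ≤ β' →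
      NN p grp idx o (t + 1) c' i j α' β' := fun _ _ _ _ _ _ _ _ h => h.up
  have up2 : Up {m | ∃ c, c + e = m} := by
    rintro _ ⟨c, rfl⟩ m'
    exact ⟨c + m', by abel⟩
  have h2 : PM k {m | ∃ c, c + e = m} 1 := pm_shift e (fun m => by simp) pm_univ
  have h3 := pm_inter (JX_up u hup) up2 hpm (h2.mono (by omega))
    ((upper u hx hp ho v1 a b ha hb hab hall s1 s2 s3 True).congr fun m => ?_)
  · have hinj : ∀ f : Fin (n + 1) → V, (∀ l, idx (f l) = l) →
        Function.Injective fun l => u (f l) := fun f hf l l' h =>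
      Fin.ext (by rw [← hf l, ← hf l', u.injective h])
    refine not_pm_LL (k := k) (fun l => u (a l)) (fun l => u (b l)) (hinj a fun l => (ha l).2)
      (hinj b fun l => (hb l).2) (fun l l' h => ?_) (Finset.univ.erase 0) 0 {x} (by simp)
      (fun l _ => by simp [hx]) ?_
    · have h4 := u.injective h
      have : l = l' := Fin.ext (by rw [← (ha l).2, ← (hb l').2, h4])
      exact hab l (this ▸ h4)
    rw [Finset.insert_erase (Finset.mem_univ _)]
    refine ((pm_shift_iff e fun m => ⟨?_, ?_⟩).2 h3).mono (by simp)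
    · rintro ⟨h4, c, rfl⟩
      refine ⟨c, ?_, rfl⟩
      by_cases h5 : c x = 0
      · refine Or.inl fun l _ => ?_
        by_contra h6
        push Not at h6
        have h7 := h4 _ _ (hab l)
        simp only [Finsupp.add_apply, h5, h6.1, h6.2, ex, eu, (ha l).1, (hb l).1, if_true,
          zero_add] at h7
        obtain ⟨-, h | h⟩ := (NN_one hp ho v1 (hab l)).1 h7
        · exact h.1 ((ha l).2.trans (hb l).2.symm)
        · exact s2 ((ha l).1 ▸ h)
      · exact Or.inr ⟨x, by simp, h5⟩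
    · rintro ⟨c, h4, rfl⟩
      refine ⟨fun i j hij => ?_, c, rfl⟩
      simp only [Finsupp.add_apply, ex, eu]
      rcases h4 with h4 | ⟨g, hg, h4⟩
      · by_cases h5 : (grp i = s0 ∧ c (u i) = 0) ∧ grp j = s0 ∧ c (u j) = 0
        · obtain ⟨⟨h5, h6⟩, h7, h8⟩ := h5
          rw [if_pos h5, if_pos h7]
          refine ((NN_one hp ho v1 hij).2 ⟨h5.trans h7.symm, Or.inl ⟨fun h9 => ?_, h5 ▸ s1⟩⟩).up
            (by omega) (by omega) (by omega)
          obtain ⟨l, ⟨rfl, rfl⟩ | ⟨rfl, rfl⟩⟩ := pair_of_idx a b ha hb hall hij h5 h7 h9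
          · exact (h4 l (by simp)).elim (· h6) (· h8)
          · exact (h4 l (by simp)).elim (· h8) (· h6)
        · refine big1 _ _ _ i j (by omega) ?_ ?_ ?_ <;> split_ifs <;> omega
      · rw [Finset.mem_singleton.1 hg] at h4
        refine big _ _ _ i j (by omega) ?_ ?_ <;> split_ifs <;> omega
  · constructor
    · intro hm
      by_cases h4 : m ∈ JX u x (NN p grp idx o (t + 1))
      · exact Or.inl h4
      right
      obtain ⟨i, j, hij, h5⟩ : ∃ i j, i ≠ j ∧
          ¬ NN p grp idx o (t + 1) (m x) i j (m (u i)) (m (u j)) := by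
        by_contra h
        exact h4 fun i j hij => by_contra fun h' => h ⟨i, j, hij, h'⟩
      obtain ⟨-, h6, h7, h8, h9, h10⟩ := (hm i j hij).resolve_left h5
      have h11 : m x = 1 := by
        by_contra h
        exact h5 (big _ _ _ i j (by omega) h9 h10)
      have h12 : m (u i) = T - 1 := by
        by_contra h
        exact h5 (big1 _ _ _ i j h8 h9 h10 (by omega))
      refine eo m h8 fun l => ?_
      rw [eu]
      by_cases h13 : l = i
      · rw [h13, if_pos h6, h12]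
      rcases hm i l (Ne.symm h13) with h14 | ⟨-, -, h14, -, -, h15⟩
      · have h16 := h14.weight ho (Ne.symm h13)
        split_ifs with h17
        · omega
        · by_contra h18
          rw [h11, h12, show m (u l) = T - 1 by omega] at h14
          exact h17 (((NN_one hp ho v1 (Ne.symm h13)).1 h14).1 ▸ h6)
      · rwa [if_pos h14]
    · rintro (hm | ⟨c, rfl⟩) i j hij
      · exact Or.inl (hm i j hij)
      · simp only [Finsupp.add_apply, ex, eu]
        by_cases h4 : grp i = s0 ∧ grp j = s0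
        · exact Or.inr ⟨trivial, h4.1, h4.2, by omega, by rw [if_pos h4.1]; omega,
            by rw [if_pos h4.2]; omega⟩
        · refine Or.inl (big1 _ _ _ i j (by omega) ?_ ?_ ?_) <;> split_ifs <;> omega

end main

end Pool.Agent.PdSym
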