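import Pool.Agent.H.MP_9d9f8d_ag.E

set_option autoImplicit false

namespace Pool.Agent.PdSym

open Pool.Agent.PdOne Pool.Agent.PdFun MvPolynomial

lemma symb_NN {σ k V : Type} [Field k] [Fintype σ] [DecidableEq σ] [Fintype V] {p : ℕ}
    {grp idx o : V → ℕ} (u : V ↪ σ) {x : σ} (hx : ∀ i, u i ≠ x)
    (t : ℕ) (f : MvPolynomial σ k) :
    f ∈ MI k (JX u x (NN p grp idx o t)) ↔
      ∀ P ∈ (MI k {m | ∀ e : {q : V × V // o q.1 < o q.2}, m ∈ {m : σ →₀ ℕ | Gen (2 * p + 4) p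
        (UU p grp idx e.1.1 e.1.2) (m x) (m (u e.1.1)) (m (u e.1.2))}}).minimalPrimes,
      ∃ w : MvPolynomial σ k, w ∉ P ∧ w * f ∈ MI k {m | ∀ e : {q : V × V // o q.1 < o q.2},
        m ∈ {m : σ →₀ ℕ | Gen (2 * p + 4) p (UU p grp idx e.1.1 e.1.2) (m x) (m (u e.1.1))
          (m (u e.1.2))}} ^ t := by
  classical
  have hne : ∀ e : {q : V × V // o q.1 < o q.2}, u e.1.1 ≠ u e.1.2 := fun e h =>
    e.2.ne (congrArg o (u.injective h))
  rw [← symbolic (fun e : {q : V × V // o q.1 < o q.2} => {x, u e.1.1, u e.1.2}) _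
    (fun e => {m : σ →₀ ℕ | In (2 * p + 4) p (UU p grp idx e.1.1 e.1.2) t (m x) (m (u e.1.1))
      (m (u e.1.2))}) t (2 * (2 * p + 4) + 1)
    (fun e => MI_In (hx _).symm (hx _).symm (hne e) t)
    (fun e m hm m' h => Gen.up hm (h _ (by simp)) (h _ (by simp)) (h _ (by simp)))
    (fun e m hm m' h => In.up hm (h _ (by simp)) (h _ (by simp)) (h _ (by simp))) ?_ ?_ ?_]
  · have : JX u x (NN p grp idx o t) = {m | ∀ e : {q : V × V // o q.1 < o q.2},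
        m ∈ {m : σ →₀ ℕ | In (2 * p + 4) p (UU p grp idx e.1.1 e.1.2) t (m x) (m (u e.1.1))
          (m (u e.1.2))}} := by
      ext m
      exact ⟨fun h e => (h _ _ fun h' => e.2.ne (congrArg o h')).1 e.2,
        fun h i j _ => ⟨fun e => h ⟨(i, j), e⟩, fun e => h ⟨(j, i), e⟩⟩⟩
    rw [this]
  · intro e g hg
    left
    simp only [Finset.mem_insert, Finset.mem_singleton] at hg
    rcases hg with rfl | rfl | rfl <;> simp only [Finsupp.single_eq_same] <;> omega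
  · intro e m hm
    have := Gen.weight hm
    by_contra h
    have h1 : ∀ g ∈ ({x, u e.1.1, u e.1.2} : Finset σ), m g = 0 := fun g hg =>
      by_contra fun h' => h ⟨g, hg, h'⟩
    rw [h1 _ (by simp), h1 _ (by simp), h1 (u e.1.2) (by simp)] at this
    omega
  · rintro ⟨⟨i, j⟩, h1⟩ ⟨⟨i', j'⟩, h2⟩ h
    have h3 := h (Finset.mem_insert_of_mem (Finset.mem_insert_self _ _))
    have h4 := h (Finset.mem_insert_of_mem (Finset.mem_insert_of_mem (Finset.mem_singleton_self _)))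
    simp only [Finset.mem_insert, Finset.mem_singleton, hx, false_or, u.apply_eq_iff_eq] at h3 h4
    simp only at h1 h2
    rcases h3 with rfl | rfl <;> rcases h4 with rfl | rfl
    · omega
    · rfl
    · omega
    · omega

theorem main (φ : ℕ → ℕ) (p : ℕ) (hp : 1 ≤ p) (h1 : ∀ t, 1 ≤ t → 1 ≤ φ t)
    (hφ : ∀ t, p + 1 ≤ t → φ (t + p) = φ t) :
    ∃ (n : ℕ) (s : Set (Fin n →₀ ℕ)), ∀ t, 1 ≤ t → ∃ J : Ideal (MvPolynomial (Fin n) ℚ),
      (∀ f, f ∈ J ↔ ∀ P ∈ (MI ℚ s).minimalPrimes, ∃ w, w ∉ P ∧ w * f ∈ MI ℚ s ^ t) ∧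
        PD (MvPolynomial (Fin n) ℚ) J (φ t + 2) ∧ ¬ PD (MvPolynomial (Fin n) ℚ) J (φ t + 1) := by
  classical
  set K := (Finset.range (2 * p + 1)).sup φ
  let P : Finset (ℕ × ℕ × Bool) :=
    (Finset.Icc 1 (2 * p) ×ˢ Finset.range K ×ˢ Finset.univ).filter fun q => q.2.1 < φ q.1
  have hP : ∀ q : ℕ × ℕ × Bool, q ∈ P ↔ ((1 ≤ q.1 ∧ q.1 ≤ 2 * p) ∧ q.2.1 < K) ∧ q.2.1 < φ q.1 := by
    intro q
    simp [P]
  let e := Fintype.equivFin (Option P)
  let u : P ↪ Fin _ := ⟨fun j => e (some j), fun j j' h => by simpa using h⟩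
  have hx : ∀ i, u i ≠ e none := fun i h => by simpa using e.injective h
  have ho : Function.Injective fun i => (u i : ℕ) := fun i j h => u.injective (Fin.ext h)
  refine ⟨_, _, fun t ht => ⟨_, symb_NN (p := p) (grp := fun i : P => i.1.1)
    (idx := fun i => i.1.2.1) (o := fun i => (u i : ℕ)) u hx t, ?_⟩⟩
  obtain ⟨s0, a1, a2, a3, s1, s2, s3⟩ := exists_s0 hp hφ t ht
  obtain ⟨t, rfl⟩ : ∃ t', t = t' + 1 := ⟨t - 1, by omega⟩
  obtain ⟨n, hn⟩ : ∃ n, φ s0 = n + 1 := ⟨φ s0 - 1, by have := h1 s0 a1; omega⟩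
  have hK : φ s0 ≤ K := Finset.le_sup (by simp; omega)
  let v : Bool → Fin (n + 1) → P := fun β l => ⟨(s0, l, β), (hP _).2
    ⟨⟨⟨a1, a2⟩, by have := l.2; simp only; omega⟩, by have := l.2; simp only; omega⟩⟩
  have v1 : ∀ i : P, 1 ≤ i.1.1 ∧ i.1.1 ≤ 2 * p := fun i => ((hP _).1 i.2).1.1
  have hab : ∀ l, v false l ≠ v true l := fun l h => by simp [v] at h
  have hall : ∀ i : P, i.1.1 = s0 → ∃ l, i = v false l ∨ i = v true l := by
    rintro ⟨⟨s, l, β⟩, hi⟩ rfl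
    have := ((hP _).1 hi).2
    refine ⟨⟨l, by simp only at this hn; omega⟩, ?_⟩
    cases β <;> simp [v]
  rw [← a3, hn]
  refine ⟨(upper (idx := fun i => i.1.2.1) u hx hp ho v1 (v false) (v true)
    (fun _ => ⟨rfl, rfl⟩) (fun _ => ⟨rfl, rfl⟩) hab
    hall s1 s2 s3 False).congr fun m => ?_, lower u hx hp ho v1 (v false) (v true)
      (fun _ => ⟨rfl, rfl⟩) (fun _ => ⟨rfl, rfl⟩) hab hall s1 s2 s3⟩
  simp [JX, NB]

end Pool.Agent.PdSym
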